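import Mathlib
import Pool.Agent.V8H9.GE.Fin

/-!
# The gcd recursion for Goldbach pairs: bounded gaps between the defects

`a N` is the recursion `a_1, a_2, …` of the problem for the parameter `N`, `d N n` is the gcd which
is subtracted at the index `n`, and `g N = g_N` is the least zero `n ≥ 2`. The defect of `N` is
`N - g_N`. We show that the integers `h ≡ 1 (mod M)` which are defects of infinitely many (in fact
of at least `X ^ (1 - ε)`, for arbitrarily large `X`) composite `N ≤ X` for which both numbers of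
the problem are prime have bounded gaps, for every `M`.
-/

set_option autoImplicit false

namespace Pool.Agent.Results.MP_b5e119_nt.BoundedGapsBetweenDefects

open Finset Filter Topology

/-- the recursion of the problem: `a_1 = N - 2`, and
`a_n = a_{n-1} - gcd(a_{n-1}, N - (-1)^n (N - n))` for `n ≥ 2` (and `a_0 = 0`, not used) -/
noncomputable def a (N : ℕ) : ℕ → ℤ
  | 0 => 0
  | 1 => (N : ℤ) - 2
  | (n + 2) => a N (n + 1) - ((Int.gcd (a N (n + 1))
      ((N : ℤ) - (-1) ^ (n + 2) * ((N : ℤ) - ((n + 2 : ℕ) : ℤ))) : ℕ) : ℤ)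

/-- the gcd subtracted at the index `n` (for `n ≥ 2`) -/
noncomputable def d (N n : ℕ) : ℕ :=
  Int.gcd (a N (n - 1)) ((N : ℤ) - (-1) ^ n * ((N : ℤ) - (n : ℤ)))

/-- `g_N`: the least `n ≥ 2` with `a_n = 0` -/
noncomputable def g (N : ℕ) : ℕ := sInf {n : ℕ | 2 ≤ n ∧ a N n = 0}

/-- `N` is composite, `N - g_N = h`, both `g_N + 1` and `2 N - g_N - 1` are prime, and at least
three of the gcds up to the index `g_N` are not `1` -/
def Good (h N : ℕ) : Prop :=
  ¬ N.Prime ∧ IsLeast {n : ℕ | 2 ≤ n ∧ a N n = 0} (g N) ∧ g N + h = N ∧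
    (g N + 1).Prime ∧ (2 * N - g N - 1).Prime ∧
    3 ≤ ((Icc 2 (g N)).filter (fun l => d N l ≠ 1)).card

lemma walk_a (N : ℕ) : Pool.Agent.Y884.GR.Walk N (a N) := by
  refine ⟨by rw [a], fun n hn => ?_⟩
  obtain ⟨k, rfl⟩ : ∃ k, n = k + 2 := ⟨n - 2, by omega⟩
  rw [a]
  rfl

lemma good_of_gd {h N : ℕ} (H : Pool.Agent.V8H9.GE.Gd h N) : Good h N := by
  obtain ⟨G, h1, h2, h3, h4, h5, h6⟩ := H.walk (walk_a N)
  have hg : g N = G := h5.csInf_eq
  refine ⟨h4, by rw [hg]; exact h5, by rw [hg]; exact h1, by rw [hg]; exact h2,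
    by rw [hg]; exact h3, ?_⟩
  rw [hg]
  exact h6

open Classical in
/-- For every `M ≥ 1` there is `C` such that every interval `[x, x + C]` of integers contains an
`h ≡ 1 (mod M)` with the following property: for every `ε > 0` there are arbitrarily large `X` such
that at least `X ^ (1 - ε)` integers `N ≤ X` are composite with `N - g_N = h` and both `g_N + 1` and
`2 N - g_N - 1` prime (and with at least three gcds different from `1`). -/
theorem result : ∀ M : ℕ, 0 < M → ∃ C : ℕ, ∀ x : ℕ, ∃ h : ℕ, x ≤ h ∧ h ≤ x + C ∧ h ≡ 1 [MOD M] ∧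
    ∀ ε : ℝ, 0 < ε → ∃ᶠ X : ℝ in atTop, X ^ (1 - ε) ≤
      (((Icc 1 ⌊X⌋₊).filter (fun N : ℕ => Good h N)).card : ℝ) := by
  intro M hM
  obtain ⟨C, hC⟩ := Pool.Agent.V8H9.GE.bounded_gaps M hM
  refine ⟨C + 1, fun x => ?_⟩
  obtain ⟨m, hm1, hm2, hm3, hm4⟩ := hC x
  refine ⟨m + 1, by omega, by omega, ?_, ?_⟩
  · have h1 : m ≡ 0 [MOD M] := (Nat.modEq_zero_iff_dvd).2 hm3
    simpa using h1.add_right 1
  · intro ε hε
    refine (hm4 ε hε).mono fun X hX => hX.trans ?_
    rw [Nat.cast_le]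
    unfold Pool.Agent.V8H9.GE.ct
    apply card_le_card
    intro N hN
    have hN' := mem_filter.1 hN
    exact mem_filter.2 ⟨hN'.1, good_of_gd hN'.2⟩

end Pool.Agent.Results.MP_b5e119_nt.BoundedGapsBetweenDefects
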