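import Pool.Agent.R482.ST.Dens
import Pool.Agent.Results.MP_b5e119_nt.AdditiveValues

/-!
# The gcd recursion for Goldbach pairs near powers, orbits and other sequences of almost all real numbers

The starting result SlowForAlmostAll gives a lower bound for `g_N` for almost all `N`, with an exceptional set of
`X exp (-c (log X)^(3/4))` elements up to `X`; nothing is known for the parameters `N` in a given sparse sequence. Let `f_k`,
`k = 0, 1, 2, …`, be positive functions on `(b, ∞)`, `b ≥ 0`, such that `f_k(x) / x` is nondecreasing, which tend to infinity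
faster than `exp (log k ^ (4/3))` (`Fast`): for instance `f_k(x) = x ^ (v_k)` for exponents `v_k ≥ 1` such that the sums of
`exp (-t v_k^(3/4))` converge for `t > 0`, for example `v_k = k` or `v_k = (log k)^2`, or `f_k(x) = v_k x` if the sums of
`exp (-t (log v_k)^(3/4))` converge. For almost all `x > b` and all `r < x`, for all large `k`, the descent is slow for EVERY
parameter `N` with `|N - f_k(x)| ≤ exp (c (log f_k(r))^(3/4))`; in particular, for almost all `x > 1`, for every `N` with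
`|N - x ^ k| ≤ exp (c (k log x)^(3/4))`, for all large `k`.
-/

set_option autoImplicit false

namespace Pool.Agent.Results.MP_b5e119_nt.StarshapedSequences

open Filter Topology MeasureTheory

/-- the recursion of the problem for the parameter `N` (and `a_0 = 0`) -/
noncomputable def a (N : ℕ) : ℕ → ℤ
  | 0 => 0
  | 1 => (N : ℤ) - 2
  | (n + 2) => a N (n + 1) - ((Int.gcd (a N (n + 1))
      ((N : ℤ) - (-1) ^ (n + 2) * ((N : ℤ) - ((n + 2 : ℕ) : ℤ))) : ℕ) : ℤ)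

/-- `g_N`: the least `n ≥ 2` with `a_n = 0` -/
noncomputable def g (N : ℕ) : ℕ := sInf {n : ℕ | 2 ≤ n ∧ a N n = 0}

/-- the descent for the parameter `N` is slow, with the constants `c` and `D`: `g_N ≥ exp (c (log N)^(1/4))`, and
`a_n ≥ N - exp (D (log N)^(3/4))` for all `1 ≤ n ≤ exp (c (log N)^(1/4))` -/
def Slow (c D : ℝ) (N : ℕ) : Prop :=
  Real.exp (c * Real.log N ^ (1 / 4 : ℝ)) ≤ g N ∧ ∀ n : ℕ, 1 ≤ n → (n : ℝ) ≤ Real.exp (c * Real.log N ^ (1 / 4 : ℝ)) →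
    (N : ℝ) - Real.exp (D * Real.log N ^ (3 / 4 : ℝ)) ≤ a N n

/-- the functions `f n` are positive on `(b, ∞)`, `b ≥ 0`, and `f n x / x` is nondecreasing there -/
def Starshaped (b : ℝ) (f : ℕ → ℝ → ℝ) : Prop :=
  0 ≤ b ∧ ∀ n : ℕ, ∀ x y : ℝ, b < x → x ≤ y → 0 < f n x ∧ f n x / x ≤ f n y / y

/-- for each `x > b` the sequence `f n x` tends to infinity, and the sums over `n` of
`exp (-t (log (f n x))^(3/4)) (1 + log (f n y / f n x))` converge for all `y ≥ x` and `t > 0` -/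
def Fast (b : ℝ) (f : ℕ → ℝ → ℝ) : Prop :=
  (∀ x : ℝ, b < x → Tendsto (fun n => f n x) atTop atTop) ∧
    ∀ x y : ℝ, b < x → x ≤ y → ∀ t : ℝ, 0 < t → Summable (fun n : ℕ =>
      Real.exp (-(t * Real.log (f n x) ^ (3 / 4 : ℝ))) * (1 + Real.log (f n y / f n x)))

lemma a_eq (N n : ℕ) : a N n = SlowForAlmostAll.a N n := by
  induction n using Nat.strong_induction_on with
  | _ n ih =>
    match n with
    | 0 => rw [a, SlowForAlmostAll.a]
    | 1 => rw [a, SlowForAlmostAll.a]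
    | n + 2 => rw [a, SlowForAlmostAll.a, ih (n + 1) (by omega)]

lemma g_eq (N : ℕ) : g N = SlowForAlmostAll.g N := by
  unfold g SlowForAlmostAll.g
  simp only [a_eq]

lemma slow_iff (c D : ℝ) (N : ℕ) : Slow c D N ↔ AdditiveValues.Slow c D N := by
  unfold Slow AdditiveValues.Slow
  simp only [a_eq, g_eq]

lemma sub34 {u v : ℝ} (hu : 0 ≤ u) (hv : 0 ≤ v) (h : u ≤ v + Real.log 2) :
    u ^ (3 / 4 : ℝ) ≤ v ^ (3 / 4 : ℝ) + 1 := by
  have hl : 0 ≤ Real.log 2 := Real.log_nonneg (by norm_num)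
  have hl1 : Real.log 2 ≤ 1 := by have := Real.log_two_lt_d9; linarith
  calc u ^ (3 / 4 : ℝ) ≤ (v + Real.log 2) ^ (3 / 4 : ℝ) := Real.rpow_le_rpow hu h (by norm_num)
    _ ≤ v ^ (3 / 4 : ℝ) + Real.log 2 ^ (3 / 4 : ℝ) := Real.rpow_add_le_add_rpow hv hl (by norm_num) (by norm_num)
    _ ≤ v ^ (3 / 4 : ℝ) + 1 := by
        have := Real.rpow_le_one hl hl1 (by norm_num : (0 : ℝ) ≤ 3 / 4)
        linarith

lemma le34 {L : ℝ} (hL : 0 ≤ L) : L ^ (3 / 4 : ℝ) ≤ L + 1 := by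
  rcases le_or_gt L 1 with h | h
  · have := Real.rpow_le_one hL h (by norm_num : (0 : ℝ) ≤ 3 / 4)
    linarith
  · calc L ^ (3 / 4 : ℝ) ≤ L ^ (1 : ℝ) := Real.rpow_le_rpow_of_exponent_le h.le (by norm_num)
      _ = L := Real.rpow_one _
      _ ≤ L + 1 := by linarith

/-- the exceptional set, with real `X` -/
lemma few_real : ∃ c D c₁ K : ℝ, 0 < c ∧ 0 < D ∧ 0 < c₁ ∧ 0 ≤ K ∧ ∀ X : ℝ, 1 ≤ X →
    {N : ℕ | N ∈ {N : ℕ | ¬ (3 ≤ N ∧ Slow c D N)} ∧ (N : ℝ) ≤ X}.Finite ∧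
    ({N : ℕ | N ∈ {N : ℕ | ¬ (3 ≤ N ∧ Slow c D N)} ∧ (N : ℝ) ≤ X}.ncard : ℝ) ≤
      (K * Real.exp (-(c₁ * Real.log X ^ (3 / 4 : ℝ)))) * X := by
  classical
  obtain ⟨c, D, c₁, K, hc, hD, hc₁, hc₁1, hK, h⟩ := AdditiveValues.few
  refine ⟨c, D, c₁, 9 + K * Real.exp c₁, hc, hD, hc₁, by positivity, fun X hX => ?_⟩
  have hX0 : 0 < X := by linarith
  set n : ℕ := ⌊X⌋₊ with hn
  have hn1 : 1 ≤ n := Nat.le_floor (by exact_mod_cast hX)
  have hn1' : (1 : ℝ) ≤ n := by exact_mod_cast hn1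
  have hn0 : (0 : ℝ) < n := by linarith
  have hnX : (n : ℝ) ≤ X := Nat.floor_le hX0.le
  have hXn : X < n + 1 := Nat.lt_floor_add_one X
  have hsub : {N : ℕ | N ∈ {N : ℕ | ¬ (3 ≤ N ∧ Slow c D N)} ∧ (N : ℝ) ≤ X} ⊆
      ((Finset.range 3 ∪ (Finset.Icc 3 n).filter (fun N => ¬ AdditiveValues.Slow c D N) : Finset ℕ) : Set ℕ) := by
    rintro N ⟨hN, hNX⟩
    rw [Finset.mem_coe, Finset.mem_union, Finset.mem_range, Finset.mem_filter, Finset.mem_Icc]
    by_cases h3 : 3 ≤ N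
    · refine Or.inr ⟨⟨h3, Nat.le_floor hNX⟩, fun hs => hN ⟨h3, (slow_iff _ _ _).2 hs⟩⟩
    · exact Or.inl (by omega)
  refine ⟨(Finset.finite_toSet _).subset hsub, ?_⟩
  have h1 := Set.ncard_le_ncard hsub (Finset.finite_toSet _)
  rw [Set.ncard_coe_finset] at h1
  have h2 := h1.trans (Finset.card_union_le _ _)
  rw [Finset.card_range] at h2
  have h3 : ({N : ℕ | N ∈ {N : ℕ | ¬ (3 ≤ N ∧ Slow c D N)} ∧ (N : ℝ) ≤ X}.ncard : ℝ) ≤
      3 + (((Finset.Icc 3 n).filter (fun N => ¬ AdditiveValues.Slow c D N)).card : ℝ) := by exact_mod_cast h2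
  have h4 := h n hn1
  have hln : 0 ≤ Real.log n := Real.log_nonneg hn1'
  have hlX : 0 ≤ Real.log X := Real.log_nonneg hX
  have hlog : Real.log X ≤ Real.log n + Real.log 2 := by
    rw [← Real.log_mul hn0.ne' (by norm_num)]
    exact Real.log_le_log hX0 (by linarith)
  have h5 := sub34 hlX hln hlog
  have h6 : Real.exp (-(c₁ * Real.log n ^ (3 / 4 : ℝ))) ≤
      Real.exp c₁ * Real.exp (-(c₁ * Real.log X ^ (3 / 4 : ℝ))) := by
    rw [← Real.exp_add]
    apply Real.exp_le_exp.2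
    nlinarith
  have h7 : K * n * Real.exp (-(c₁ * Real.log n ^ (3 / 4 : ℝ))) ≤
      K * Real.exp c₁ * Real.exp (-(c₁ * Real.log X ^ (3 / 4 : ℝ))) * X := by
    calc K * n * Real.exp (-(c₁ * Real.log n ^ (3 / 4 : ℝ)))
        ≤ K * X * (Real.exp c₁ * Real.exp (-(c₁ * Real.log X ^ (3 / 4 : ℝ)))) :=
          mul_le_mul (mul_le_mul_of_nonneg_left hnX hK) h6 (Real.exp_pos _).le (by positivity)
      _ = _ := by ring
  have h8 : (3 : ℝ) ≤ 9 * Real.exp (-(c₁ * Real.log X ^ (3 / 4 : ℝ))) * X := by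
    have e1 := le34 hlX
    have e0 : 0 ≤ Real.log X ^ (3 / 4 : ℝ) := by positivity
    have e2 : Real.exp (-1) ≤ Real.exp (-(c₁ * Real.log X ^ (3 / 4 : ℝ))) * X := by
      have e3 : X = Real.exp (Real.log X) := (Real.exp_log hX0).symm
      calc Real.exp (-1) ≤ Real.exp (-(c₁ * Real.log X ^ (3 / 4 : ℝ)) + Real.log X) := by
            apply Real.exp_le_exp.2
            nlinarith
        _ = Real.exp (-(c₁ * Real.log X ^ (3 / 4 : ℝ))) * X := by rw [Real.exp_add, ← e3]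
    have e4 : (1 : ℝ) / 3 ≤ Real.exp (-1) := by
      rw [Real.exp_neg, ← one_div]
      apply one_div_le_one_div_of_le (Real.exp_pos _)
      have := Real.exp_one_lt_d9
      linarith
    nlinarith
  nlinarith

lemma star_mono {b : ℝ} {f : ℕ → ℝ → ℝ} (hf : Starshaped b f) (n : ℕ) {x y : ℝ} (hx : b < x) (hxy : x ≤ y) :
    f n x ≤ f n y := by
  have hx0 : 0 < x := lt_of_le_of_lt hf.1 hx
  have hy0 : 0 < y := lt_of_lt_of_le hx0 hxy
  obtain ⟨p1, p2⟩ := hf.2 n x y hx hxy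
  rw [div_le_div_iff₀ hx0 hy0] at p2
  by_contra hcon
  rw [not_le] at hcon
  have p3 : 0 < f n y := (hf.2 n y y (lt_of_lt_of_le hx hxy) le_rfl).1
  nlinarith

lemma dom34 {c u : ℝ} (hc : 0 ≤ c) (hu : (2 + c) ^ 4 ≤ u) : Real.log 2 + c * u ^ (3 / 4 : ℝ) ≤ u := by
  have hl1 : Real.log 2 ≤ 1 := by have := Real.log_two_lt_d9; linarith
  have h1 : (1 : ℝ) ≤ (2 + c) ^ 4 := one_le_pow₀ (by linarith)
  have hu0 : 0 < u := by linarith
  have h2 : 2 + c ≤ u ^ (1 / 4 : ℝ) := by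
    calc 2 + c = ((2 + c) ^ 4) ^ (1 / 4 : ℝ) := by
          rw [← Real.rpow_natCast, ← Real.rpow_mul (by linarith)]
          norm_num
      _ ≤ u ^ (1 / 4 : ℝ) := Real.rpow_le_rpow (by positivity) hu (by norm_num)
  have h3 : u ^ (3 / 4 : ℝ) * u ^ (1 / 4 : ℝ) = u := by
    rw [← Real.rpow_add hu0]
    norm_num
  have h4 : 1 ≤ u ^ (3 / 4 : ℝ) := Real.one_le_rpow (by linarith) (by norm_num)
  nlinarith

/-- the main step, for the windows with the constant `c₁ / 2` -/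
lemma core {c D c₁ K : ℝ} (hc₁ : 0 < c₁) (hK : 0 ≤ K) (hfew : ∀ X : ℝ, 1 ≤ X →
    {N : ℕ | N ∈ {N : ℕ | ¬ (3 ≤ N ∧ Slow c D N)} ∧ (N : ℝ) ≤ X}.Finite ∧
    ({N : ℕ | N ∈ {N : ℕ | ¬ (3 ≤ N ∧ Slow c D N)} ∧ (N : ℝ) ≤ X}.ncard : ℝ) ≤
      (K * Real.exp (-(c₁ * Real.log X ^ (3 / 4 : ℝ)))) * X) {f : ℕ → ℝ → ℝ} {b : ℝ} (hf : Starshaped b f)
    (hF : Fast b f) :
    ∀ᵐ x : ℝ, b < x → ∀ r : ℝ, b < r → r < x → ∃ k₀ : ℕ, ∀ k : ℕ, k₀ ≤ k → ∀ N : ℕ,
      |(N : ℝ) - f k x| ≤ Real.exp (c₁ / 2 * Real.log (f k r) ^ (3 / 4 : ℝ)) → 3 ≤ N ∧ Slow c D N := by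
  have hb := hf.1
  have hone : ∀ q : {q : ℚ // b < (q : ℝ)}, ∃ E : Set ℝ, volume E = 0 ∧ ∀ x : ℝ, ((q : ℚ) : ℝ) < x → x ∉ E →
      ∃ k₀ : ℕ, ∀ k : ℕ, k₀ ≤ k → ∀ t ∈ {N : ℕ | ¬ (3 ≤ N ∧ Slow c D N)},
        Real.exp (c₁ / 2 * Real.log (f k ((q : ℚ) : ℝ)) ^ (3 / 4 : ℝ)) < |((t : ℕ) : ℝ) - f k x| := by
    rintro ⟨q, hq⟩
    have hlim := hF.1 (q : ℝ) hq
    have hev : ∀ M : ℝ, ∀ᶠ n in atTop, M ≤ Real.log (f n (q : ℝ)) := fun M =>
      (Real.tendsto_log_atTop.comp hlim).eventually (eventually_ge_atTop M)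
    have hge : ∀ n : ℕ, ∀ x : ℝ, (q : ℝ) < x → Real.log (f n (q : ℝ)) ≤ Real.log (f n x) := fun n x hx =>
      Real.log_le_log (hf.2 n _ _ hq le_rfl).1 (star_mono hf n hq hx.le)
    refine Pool.Agent.R482.ST.star_density {N : ℕ | ¬ (3 ≤ N ∧ Slow c D N)} (fun N : ℕ => (N : ℝ)) (f := f)
      (a := (q : ℝ)) (by linarith) (fun n x y hx hxy => hf.2 n x y (hq.trans hx) hxy)
      (fun x hx => hF.1 x (hq.trans hx)) (D := fun X => K * Real.exp (-(c₁ * Real.log X ^ (3 / 4 : ℝ))))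
      (fun X _ => by positivity) (fun X Y hX hXY => ?_)
      (L := fun n => Real.exp (c₁ / 2 * Real.log (f n (q : ℝ)) ^ (3 / 4 : ℝ))) (fun n => (Real.exp_pos _).le)
      (fun x hx => ?_) (fun x y hx hxy => ?_) hfew
    · apply mul_le_mul_of_nonneg_left _ hK
      apply Real.exp_le_exp.2
      have h1 : Real.log X ^ (3 / 4 : ℝ) ≤ Real.log Y ^ (3 / 4 : ℝ) :=
        Real.rpow_le_rpow (Real.log_nonneg hX) (Real.log_le_log (by linarith) hXY) (by norm_num)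
      nlinarith
    · filter_upwards [hev ((2 + c₁ / 2) ^ 4)] with n hn
      have h1 := dom34 (by positivity) hn
      have h2 := hge n x hx
      have h3 : 0 < f n x := (hf.2 n x x (hq.trans hx) le_rfl).1
      calc 2 * Real.exp (c₁ / 2 * Real.log (f n (q : ℝ)) ^ (3 / 4 : ℝ))
          = Real.exp (Real.log 2 + c₁ / 2 * Real.log (f n (q : ℝ)) ^ (3 / 4 : ℝ)) := by
            rw [Real.exp_add, Real.exp_log (by norm_num)]
        _ ≤ Real.exp (Real.log (f n x)) := Real.exp_le_exp.2 (h1.trans h2)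
        _ = f n x := Real.exp_log h3
    · have hs := (hF.2 x y (hq.trans hx) hxy (c₁ / 2) (by positivity)).mul_left (K * Real.exp c₁)
      refine Summable.of_norm_bounded_eventually_nat hs ?_
      filter_upwards [hev 1] with n hn
      have hfx : 0 < f n x := (hf.2 n x x (hq.trans hx) le_rfl).1
      have hfy : 0 < f n y := (hf.2 n y y ((hq.trans hx).trans_le hxy) le_rfl).1
      have hxy' : 0 ≤ Real.log (f n y / f n x) := by
        apply Real.log_nonneg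
        rw [le_div_iff₀ hfx, one_mul]
        exact star_mono hf n (hq.trans hx) hxy
      have hu := hge n x hx
      have hl2 : Real.log 2 ≤ 1 := by have := Real.log_two_lt_d9; linarith
      have hv : Real.log (f n x / 2) = Real.log (f n x) - Real.log 2 := Real.log_div hfx.ne' (by norm_num)
      have hv0 : 0 ≤ Real.log (f n x / 2) := by rw [hv]; linarith
      have h1 := sub34 (u := Real.log (f n x)) (v := Real.log (f n x / 2)) (by linarith) hv0 (by rw [hv]; linarith)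
      have h2 : Real.log (f n (q : ℝ)) ^ (3 / 4 : ℝ) ≤ Real.log (f n x) ^ (3 / 4 : ℝ) :=
        Real.rpow_le_rpow (by linarith) hu (by norm_num)
      rw [Real.norm_of_nonneg (by positivity)]
      have h3 : Real.exp (-(c₁ * Real.log (f n x / 2) ^ (3 / 4 : ℝ))) *
          Real.exp (c₁ / 2 * Real.log (f n (q : ℝ)) ^ (3 / 4 : ℝ)) ≤
          Real.exp c₁ * Real.exp (-(c₁ / 2 * Real.log (f n x) ^ (3 / 4 : ℝ))) := by
        rw [← Real.exp_add, ← Real.exp_add]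
        apply Real.exp_le_exp.2
        nlinarith
      calc K * Real.exp (-(c₁ * Real.log (f n x / 2) ^ (3 / 4 : ℝ))) *
            Real.exp (c₁ / 2 * Real.log (f n (q : ℝ)) ^ (3 / 4 : ℝ)) * (1 + Real.log (f n y / f n x))
          = K * (Real.exp (-(c₁ * Real.log (f n x / 2) ^ (3 / 4 : ℝ))) *
            Real.exp (c₁ / 2 * Real.log (f n (q : ℝ)) ^ (3 / 4 : ℝ))) * (1 + Real.log (f n y / f n x)) := by ring
        _ ≤ K * (Real.exp c₁ * Real.exp (-(c₁ / 2 * Real.log (f n x) ^ (3 / 4 : ℝ)))) *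
            (1 + Real.log (f n y / f n x)) :=
            mul_le_mul_of_nonneg_right (mul_le_mul_of_nonneg_left h3 hK) (by linarith)
        _ = _ := by ring
  choose E hE hE2 using hone
  have hE0 : volume (⋃ q, E q) = 0 := measure_iUnion_null hE
  filter_upwards [measure_eq_zero_iff_ae_notMem.1 hE0] with x hxE hx r hr hrx
  obtain ⟨q, hq1, hq2⟩ := exists_rat_btwn hrx
  have hbq : b < (q : ℝ) := hr.trans hq1
  obtain ⟨k₀, hk⟩ := hE2 ⟨q, hbq⟩ x hq2 (fun h => hxE (Set.mem_iUnion.2 ⟨_, h⟩))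
  obtain ⟨k₁, hk1⟩ := eventually_atTop.1 ((Real.tendsto_log_atTop.comp (hF.1 r hr)).eventually (eventually_ge_atTop 0))
  refine ⟨max k₀ k₁, fun k hkk N hN => ?_⟩
  by_contra hcon
  have h1 := hk k ((le_max_left _ _).trans hkk) N hcon
  have h2 : 0 ≤ Real.log (f k r) := hk1 k ((le_max_right _ _).trans hkk)
  have h3 : Real.log (f k r) ^ (3 / 4 : ℝ) ≤ Real.log (f k (q : ℝ)) ^ (3 / 4 : ℝ) :=
    Real.rpow_le_rpow h2 (Real.log_le_log (hf.2 k _ _ hr le_rfl).1 (star_mono hf k hr hq1.le)) (by norm_num)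
  have h4 : Real.exp (c₁ / 2 * Real.log (f k r) ^ (3 / 4 : ℝ)) ≤
      Real.exp (c₁ / 2 * Real.log (f k (q : ℝ)) ^ (3 / 4 : ℝ)) :=
    Real.exp_le_exp.2 (mul_le_mul_of_nonneg_left h3 (by positivity))
  linarith

/-- exponents tending to infinity fast -/
lemma v_tend {v : ℕ → ℝ} (hv : ∀ n, 1 ≤ v n) (h : Summable (fun n : ℕ => Real.exp (-(1 * v n ^ (3 / 4 : ℝ))))) :
    Tendsto v atTop atTop := by
  rw [tendsto_atTop]
  intro M
  have h1 := h.tendsto_atTop_zero.eventually (gt_mem_nhds (Real.exp_pos (-(max M 1) ^ (3 / 4 : ℝ))))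
  filter_upwards [h1] with n hn
  by_contra hcon
  rw [not_le] at hcon
  rw [Real.exp_lt_exp, one_mul, neg_lt_neg_iff] at hn
  have h2 : v n ^ (3 / 4 : ℝ) ≤ (max M 1) ^ (3 / 4 : ℝ) :=
    Real.rpow_le_rpow (by linarith [hv n]) (hcon.le.trans (le_max_left _ _)) (by norm_num)
  linarith

lemma exp_beats {t z : ℝ} (ht : 0 < t) (hz : 0 ≤ z) : z ^ 2 ≤ 8 / t ^ 2 * Real.exp (t / 2 * z) := by
  have h1 := Real.quadratic_le_exp_of_nonneg (show 0 ≤ t / 2 * z by positivity)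
  have h2 : (t / 2 * z) ^ 2 / 2 ≤ Real.exp (t / 2 * z) := by
    have : 0 ≤ t / 2 * z := by positivity
    linarith
  have h3 : z ^ 2 = 8 / t ^ 2 * ((t / 2 * z) ^ 2 / 2) := by
    field_simp
    ring
  rw [h3]
  exact mul_le_mul_of_nonneg_left h2 (by positivity)

lemma fast_pow {v : ℕ → ℝ} (hv : ∀ n, 1 ≤ v n)
    (h : ∀ t : ℝ, 0 < t → Summable (fun n : ℕ => Real.exp (-(t * v n ^ (3 / 4 : ℝ))))) :
    Fast 1 (fun n x => x ^ (v n)) := by
  have hvt := v_tend hv (h 1 one_pos)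
  refine ⟨fun x hx => ?_, fun x y hx hxy t ht => ?_⟩
  · have h1 : Tendsto (fun n => Real.exp (Real.log x * v n)) atTop atTop :=
      Real.tendsto_exp_atTop.comp (hvt.const_mul_atTop (Real.log_pos hx))
    refine h1.congr (fun n => ?_)
    show Real.exp (Real.log x * v n) = x ^ v n
    rw [Real.rpow_def_of_pos (by linarith)]
  · have hx0 : 0 < x := by linarith
    have hy0 : 0 < y := by linarith
    have hlx : 0 < Real.log x := Real.log_pos hx
    have hl : 0 ≤ Real.log (y / x) := Real.log_nonneg (by rw [le_div_iff₀ hx0]; linarith)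
    set s : ℝ := t * Real.log x ^ (3 / 4 : ℝ) with hs
    have hs0 : 0 < s := by positivity
    have hsum := (h (s / 2) (by positivity)).mul_left ((1 + Real.log (y / x)) * (8 / s ^ 2))
    refine Summable.of_nonneg_of_le (fun n => ?_) (fun n => ?_) hsum
    · have e1 : 0 ≤ Real.log (y ^ v n / x ^ v n) := by
        rw [← Real.div_rpow hy0.le hx0.le, Real.log_rpow (by positivity)]
        exact mul_nonneg (by linarith [hv n]) hl
      positivity
    · have hvn := hv n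
      have hvn0 : 0 ≤ v n := by linarith
      have e1 : Real.log (y ^ v n / x ^ v n) = v n * Real.log (y / x) := by
        rw [← Real.div_rpow hy0.le hx0.le, Real.log_rpow (by positivity)]
      have e2 : Real.log (x ^ v n) ^ (3 / 4 : ℝ) = Real.log x ^ (3 / 4 : ℝ) * v n ^ (3 / 4 : ℝ) := by
        rw [Real.log_rpow hx0, Real.mul_rpow hvn0 hlx.le, mul_comm]
      show Real.exp (-(t * Real.log (x ^ v n) ^ (3 / 4 : ℝ))) * (1 + Real.log (y ^ v n / x ^ v n)) ≤ _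
      rw [e1, e2]
      set z : ℝ := v n ^ (3 / 4 : ℝ) with hz
      have hz1 : 1 ≤ z := Real.one_le_rpow hvn (by norm_num)
      have e3 : v n ≤ z ^ 2 := by
        rw [hz, ← Real.rpow_natCast, ← Real.rpow_mul hvn0]
        calc v n = v n ^ (1 : ℝ) := (Real.rpow_one _).symm
          _ ≤ v n ^ (3 / 4 * ((2 : ℕ) : ℝ)) := Real.rpow_le_rpow_of_exponent_le hvn (by norm_num)
      have e4 := exp_beats hs0 (by linarith : 0 ≤ z)
      have e5 : 1 + v n * Real.log (y / x) ≤ (1 + Real.log (y / x)) * (8 / s ^ 2 * Real.exp (s / 2 * z)) := by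
        calc 1 + v n * Real.log (y / x) ≤ (1 + Real.log (y / x)) * v n := by nlinarith
          _ ≤ (1 + Real.log (y / x)) * (8 / s ^ 2 * Real.exp (s / 2 * z)) :=
              mul_le_mul_of_nonneg_left (e3.trans e4) (by linarith)
      have e6 : Real.exp (-(t * (Real.log x ^ (3 / 4 : ℝ) * z))) * Real.exp (s / 2 * z) = Real.exp (-(s / 2 * z)) := by
        rw [← Real.exp_add]
        congr 1
        rw [hs]
        ring
      calc Real.exp (-(t * (Real.log x ^ (3 / 4 : ℝ) * z))) * (1 + v n * Real.log (y / x))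
          ≤ Real.exp (-(t * (Real.log x ^ (3 / 4 : ℝ) * z))) *
            ((1 + Real.log (y / x)) * (8 / s ^ 2 * Real.exp (s / 2 * z))) :=
            mul_le_mul_of_nonneg_left e5 (Real.exp_pos _).le
        _ = (1 + Real.log (y / x)) * (8 / s ^ 2) *
            (Real.exp (-(t * (Real.log x ^ (3 / 4 : ℝ) * z))) * Real.exp (s / 2 * z)) := by ring
        _ = _ := by rw [e6]

lemma star_pow' {v : ℕ → ℝ} (hv : ∀ n, 1 ≤ v n) : Starshaped 1 (fun n x => x ^ (v n)) :=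
  ⟨zero_le_one, Pool.Agent.R482.ST.star_pow hv⟩

lemma star_mul' {v : ℕ → ℝ} (hv : ∀ n, 0 < v n) : Starshaped 0 (fun n x => v n * x) :=
  ⟨le_rfl, Pool.Agent.R482.ST.star_mul hv⟩

/-- logarithms of multiples -/
lemma log_half {v : ℕ → ℝ} (hv : ∀ n, 1 ≤ v n) (hl : Tendsto (fun n => Real.log (v n)) atTop atTop) {x : ℝ} (hx : 0 < x) :
    ∀ᶠ n in atTop, 1 / 2 * Real.log (v n) ≤ Real.log (v n * x) := by
  filter_upwards [hl.eventually (eventually_ge_atTop (-(2 * Real.log x)))] with n hn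
  rw [Real.log_mul (by linarith [hv n]) hx.ne']
  linarith

lemma half34 {u w : ℝ} (hu : 0 ≤ u) (h : 1 / 2 * u ≤ w) : 1 / 2 * u ^ (3 / 4 : ℝ) ≤ w ^ (3 / 4 : ℝ) := by
  calc 1 / 2 * u ^ (3 / 4 : ℝ) ≤ (1 / 2) ^ (3 / 4 : ℝ) * u ^ (3 / 4 : ℝ) := by
        apply mul_le_mul_of_nonneg_right _ (by positivity)
        calc (1 / 2 : ℝ) = (1 / 2) ^ (1 : ℝ) := (Real.rpow_one _).symm
          _ ≤ (1 / 2) ^ (3 / 4 : ℝ) :=
            Real.rpow_le_rpow_of_exponent_ge (by norm_num) (by norm_num) (by norm_num)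
    _ = (1 / 2 * u) ^ (3 / 4 : ℝ) := (Real.mul_rpow (by norm_num) hu).symm
    _ ≤ w ^ (3 / 4 : ℝ) := Real.rpow_le_rpow (by positivity) h (by norm_num)

lemma fast_mul {v : ℕ → ℝ} (hv : ∀ n, 1 ≤ v n) (hl : Tendsto (fun n => Real.log (v n)) atTop atTop)
    (h : ∀ t : ℝ, 0 < t → Summable (fun n : ℕ => Real.exp (-(t * Real.log (v n) ^ (3 / 4 : ℝ))))) :
    Fast 0 (fun n x => v n * x) := by
  refine ⟨fun x hx => ?_, fun x y hx hxy t ht => ?_⟩
  · have h1 : Tendsto v atTop atTop := by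
      refine (Real.tendsto_exp_atTop.comp hl).congr (fun n => ?_)
      exact Real.exp_log (by linarith [hv n])
    exact h1.atTop_mul_const hx
  · have hy : 0 < y := by linarith
    have hyx : 0 ≤ Real.log (y / x) := Real.log_nonneg (by rw [le_div_iff₀ hx]; linarith)
    have hsum := (h (t / 2) (by positivity)).mul_right (1 + Real.log (y / x))
    refine Summable.of_norm_bounded_eventually_nat hsum ?_
    filter_upwards [log_half hv hl hx] with n hn
    have e0 : 0 < v n := by linarith [hv n]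
    have e1 : v n * y / (v n * x) = y / x := by field_simp
    rw [e1, Real.norm_of_nonneg (by positivity)]
    apply mul_le_mul_of_nonneg_right _ (by linarith)
    apply Real.exp_le_exp.2
    have e2 := half34 (Real.log_nonneg (hv n)) hn
    nlinarith

lemma log_tend {v : ℕ → ℝ} (hv : ∀ n, 1 ≤ v n)
    (h : ∀ t : ℝ, 0 < t → Summable (fun n : ℕ => Real.exp (-(t * Real.log (v n) ^ (3 / 4 : ℝ))))) :
    Tendsto (fun n => Real.log (v n)) atTop atTop := by
  rw [tendsto_atTop]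
  intro M
  have h1 := (h 1 one_pos).tendsto_atTop_zero.eventually (gt_mem_nhds (Real.exp_pos (-(max M 0) ^ (3 / 4 : ℝ))))
  filter_upwards [h1] with n hn
  by_contra hcon
  rw [not_le] at hcon
  rw [Real.exp_lt_exp, one_mul, neg_lt_neg_iff] at hn
  have h2 : Real.log (v n) ^ (3 / 4 : ℝ) ≤ (max M 0) ^ (3 / 4 : ℝ) :=
    Real.rpow_le_rpow (Real.log_nonneg (hv n)) (hcon.le.trans (le_max_left _ _)) (by norm_num)
  linarith

lemma slow_mono {c c' D : ℝ} (h : c' ≤ c) {N : ℕ} (hs : 3 ≤ N ∧ Slow c D N) : 3 ≤ N ∧ Slow c' D N :=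
  ⟨hs.1, (slow_iff _ _ _).2 (AdditiveValues.slow_mono h hs.1 ((slow_iff _ _ _).1 hs.2))⟩

/-- **Theorem.** There are `c, D > 0` such that: (1) for all starshaped functions `f` on `(b, ∞)` with the property `Fast`, for
all `x > b` outside a set of Lebesgue measure zero and all `r` with `b < r < x`, for all large `k`, EVERY `N : ℕ` with
`|N - f_k(x)| ≤ exp (c (log f_k(r))^(3/4))` satisfies `N ≥ 3`, `g_N ≥ exp (c (log N)^(1/4))`, and
`a_n ≥ N - exp (D (log N)^(3/4))` for all `1 ≤ n ≤ exp (c (log N)^(1/4))` (`Slow`). (2) If `v_k ≥ 1` and the sums of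
`exp (-t v_k^(3/4))` converge for `t > 0`, then for almost all `x > 1`, for all large `k`, this is true for EVERY `N` with
`|N - x ^ (v_k)| ≤ exp (c (v_k log x)^(3/4))`. (3) In particular for almost all `x > 1`, all large `k` and EVERY `N` with
`|N - x ^ k| ≤ exp (c (k log x)^(3/4))`. (4) If `v_k ≥ 1` and the sums of `exp (-t (log v_k)^(3/4))` converge for `t > 0`,
then for almost all `x > 0` this is true for all large `k` and EVERY `N` with `|N - v_k x| ≤ exp (c (log v_k)^(3/4))`. -/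
theorem result : ∃ c D : ℝ, 0 < c ∧ 0 < D ∧
    (∀ (f : ℕ → ℝ → ℝ) (b : ℝ), Starshaped b f → Fast b f →
      ∀ᵐ x : ℝ, b < x → ∀ r : ℝ, b < r → r < x → ∃ k₀ : ℕ, ∀ k : ℕ, k₀ ≤ k → ∀ N : ℕ,
        |(N : ℝ) - f k x| ≤ Real.exp (c * Real.log (f k r) ^ (3 / 4 : ℝ)) → 3 ≤ N ∧ Slow c D N) ∧
    (∀ v : ℕ → ℝ, (∀ n, 1 ≤ v n) → (∀ t : ℝ, 0 < t → Summable (fun n : ℕ => Real.exp (-(t * v n ^ (3 / 4 : ℝ))))) →
      ∀ᵐ x : ℝ, 1 < x → ∃ k₀ : ℕ, ∀ k : ℕ, k₀ ≤ k → ∀ N : ℕ,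
        |(N : ℝ) - x ^ (v k)| ≤ Real.exp (c * (v k * Real.log x) ^ (3 / 4 : ℝ)) → 3 ≤ N ∧ Slow c D N) ∧
    (∀ᵐ x : ℝ, 1 < x → ∃ k₀ : ℕ, ∀ k : ℕ, k₀ ≤ k → ∀ N : ℕ,
      |(N : ℝ) - x ^ k| ≤ Real.exp (c * (k * Real.log x) ^ (3 / 4 : ℝ)) → 3 ≤ N ∧ Slow c D N) ∧
    (∀ v : ℕ → ℝ, (∀ n, 1 ≤ v n) →
      (∀ t : ℝ, 0 < t → Summable (fun n : ℕ => Real.exp (-(t * Real.log (v n) ^ (3 / 4 : ℝ))))) →
      ∀ᵐ x : ℝ, 0 < x → ∃ k₀ : ℕ, ∀ k : ℕ, k₀ ≤ k → ∀ N : ℕ,
        |(N : ℝ) - v k * x| ≤ Real.exp (c * Real.log (v k) ^ (3 / 4 : ℝ)) → 3 ≤ N ∧ Slow c D N) := by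
  obtain ⟨c₀, D, c₁, K, hc₀, hD, hc₁, hK, hfew⟩ := few_real
  obtain ⟨c, hc⟩ : ∃ c : ℝ, c = min c₀ (c₁ / 4) := ⟨_, rfl⟩
  have hcc₀ : c ≤ c₀ := by rw [hc]; exact min_le_left _ _
  have hcc₁ : c ≤ c₁ / 4 := by rw [hc]; exact min_le_right _ _
  have hc0 : 0 < c := by rw [hc]; exact lt_min hc₀ (by positivity)
  have hpow : ∀ v : ℕ → ℝ, (∀ n, 1 ≤ v n) →
      (∀ t : ℝ, 0 < t → Summable (fun n : ℕ => Real.exp (-(t * v n ^ (3 / 4 : ℝ))))) →
      ∀ᵐ x : ℝ, 1 < x → ∃ k₀ : ℕ, ∀ k : ℕ, k₀ ≤ k → ∀ N : ℕ,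
        |(N : ℝ) - x ^ (v k)| ≤ Real.exp (c * (v k * Real.log x) ^ (3 / 4 : ℝ)) → 3 ≤ N ∧ Slow c D N := by
    intro v hv h
    filter_upwards [core hc₁ hK hfew (star_pow' hv) (fast_pow hv h)] with x hx hx1
    have hx0 : 0 < x := by linarith
    have hlx : 0 < Real.log x := Real.log_pos hx1
    have hr : 1 < x ^ (1 / 2 : ℝ) := Real.one_lt_rpow hx1 (by norm_num)
    have hrx : x ^ (1 / 2 : ℝ) < x := by
      calc x ^ (1 / 2 : ℝ) < x ^ (1 : ℝ) := Real.rpow_lt_rpow_of_exponent_lt hx1 (by norm_num)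
        _ = x := Real.rpow_one x
    obtain ⟨k₀, hk⟩ := hx hx1 _ hr hrx
    refine ⟨k₀, fun k hkk N hN => slow_mono hcc₀ (hk k hkk N (hN.trans ?_))⟩
    apply Real.exp_le_exp.2
    have hvk := hv k
    have e1 : Real.log ((x ^ (1 / 2 : ℝ)) ^ v k) = 1 / 2 * (v k * Real.log x) := by
      rw [Real.log_rpow (by positivity), Real.log_rpow hx0]
      ring
    have e2 := half34 (u := v k * Real.log x) (w := Real.log ((x ^ (1 / 2 : ℝ)) ^ v k)) (by positivity) (by rw [e1])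
    have e3 : 0 ≤ (v k * Real.log x) ^ (3 / 4 : ℝ) := by positivity
    nlinarith
  refine ⟨c, D, hc0, hD, fun f b hf hF => ?_, hpow, ?_, fun v hv h => ?_⟩
  · filter_upwards [core hc₁ hK hfew hf hF] with x hx hbx r hr hrx
    obtain ⟨k₀, hk⟩ := hx hbx r hr hrx
    obtain ⟨k₁, hk1⟩ := eventually_atTop.1
      ((Real.tendsto_log_atTop.comp (hF.1 r hr)).eventually (eventually_ge_atTop 0))
    refine ⟨max k₀ k₁, fun k hkk N hN => slow_mono hcc₀ (hk k ((le_max_left _ _).trans hkk) N (hN.trans ?_))⟩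
    apply Real.exp_le_exp.2
    have h2 : 0 ≤ Real.log (f k r) := hk1 k ((le_max_right _ _).trans hkk)
    have e3 : 0 ≤ Real.log (f k r) ^ (3 / 4 : ℝ) := by positivity
    nlinarith
  · have h1 := hpow (fun n : ℕ => (n : ℝ) + 1) (fun n => by
      have : (0 : ℝ) ≤ n := Nat.cast_nonneg n
      linarith) (fun t ht => ?_)
    · filter_upwards [h1] with x hx hx1
      obtain ⟨k₀, hk⟩ := hx hx1
      refine ⟨k₀ + 1, fun k hkk N hN => hk (k - 1) (by omega) N ?_⟩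
      have h4 : ((k - 1 : ℕ) : ℝ) + 1 = k := by
        rw [Nat.cast_sub (by omega)]
        push_cast
        ring
      simp only [h4]
      rwa [Real.rpow_natCast]
    · have h2 : Summable fun n : ℕ => 8 / t ^ 2 * (1 / (((n + 1 : ℕ) : ℝ)) ^ (3 / 2 : ℝ)) :=
        ((summable_nat_add_iff 1).2 (Real.summable_one_div_nat_rpow.2 (by norm_num))).mul_left _
      refine Summable.of_nonneg_of_le (fun n => (Real.exp_pos _).le) (fun n => ?_) h2
      have hn0 : (0 : ℝ) < ((n + 1 : ℕ) : ℝ) := by positivity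
      have e1 : (n : ℝ) + 1 = ((n + 1 : ℕ) : ℝ) := by push_cast; ring
      rw [e1]
      set z : ℝ := ((n + 1 : ℕ) : ℝ) ^ (3 / 4 : ℝ) with hz
      have hz0 : 0 < z := by positivity
      have e2 := exp_beats ht hz0.le
      have e3 : Real.exp (t / 2 * z) ≤ Real.exp (t * z) := Real.exp_le_exp.2 (by nlinarith)
      have e4 : z ^ 2 = ((n + 1 : ℕ) : ℝ) ^ (3 / 2 : ℝ) := by
        rw [hz, ← Real.rpow_natCast, ← Real.rpow_mul hn0.le]
        norm_num
      rw [← e4, Real.exp_neg, ← one_div, ← mul_one_div, div_mul_div_comm, one_mul, div_le_iff₀ (Real.exp_pos _),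
        div_mul_eq_mul_div, le_div_iff₀ (by positivity)]
      have e5 : 0 < t ^ 2 := by positivity
      have e6 : z ^ 2 * t ^ 2 ≤ 8 * Real.exp (t / 2 * z) := by
        calc z ^ 2 * t ^ 2 ≤ (8 / t ^ 2 * Real.exp (t / 2 * z)) * t ^ 2 := mul_le_mul_of_nonneg_right e2 e5.le
          _ = 8 * Real.exp (t / 2 * z) := by field_simp
      linarith
  · have hl := log_tend hv h
    filter_upwards [core hc₁ hK hfew (star_mul' (fun n => by linarith [hv n])) (fast_mul hv hl h)] with x hx hx0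
    obtain ⟨k₀, hk⟩ := hx hx0 (x / 2) (by positivity) (by linarith)
    obtain ⟨k₁, hk1⟩ := eventually_atTop.1 (log_half hv hl (show 0 < x / 2 by positivity))
    refine ⟨max k₀ k₁, fun k hkk N hN => slow_mono hcc₀ (hk k ((le_max_left _ _).trans hkk) N (hN.trans ?_))⟩
    apply Real.exp_le_exp.2
    have e1 := half34 (Real.log_nonneg (hv k)) (hk1 k ((le_max_right _ _).trans hkk))
    have e3 : 0 ≤ Real.log (v k) ^ (3 / 4 : ℝ) := Real.rpow_nonneg (Real.log_nonneg (hv k)) _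
    nlinarith

end Pool.Agent.Results.MP_b5e119_nt.StarshapedSequences
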