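import Pool.Agent.V8H1.TR.Count
import Pool.Agent.Results.MP_b5e119_nt.StarshapedSequences

/-!
# The gcd recursion for Goldbach pairs near the values of generic linear forms and of generic polynomials

The starting result SlowForAlmostAll gives a lower bound for `g_N` for almost all `N`. Here the parameters `N` are in windows of
length `exp (c (log |N|)^(3/4))` around the values `α_1 v_1 + ... + α_k v_k` of a generic real linear form: for almost all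
`α ∈ ℝ ^ k`,

* for all but finitely many members `v` of a sparse family (`Sparse`), such as `(2 ^ (n_1), 3 ^ (n_2), …)` over all
  `(n_1, …, n_k)`, or `(1, x, …, x ^ d)` for `x = 2 ^ n`, EVERY such `N` is slow;
* for a sequence `v_m` with `‖v_m‖ ≥ s m ^ a`, `a > 0`, for all `m ≤ M` but `K M exp (-c' (log M)^(3/4))`, EVERY such `N` is
  slow. In particular this is true for almost all real polynomials `F` of degree `d ≥ 1` and the windows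
  `|N - F(m)| ≤ exp (c (d log m)^(3/4))`.
-/

set_option autoImplicit false

namespace Pool.Agent.Results.MP_b5e119_nt.GenericLinearForms

open Filter Topology MeasureTheory

/-- the recursion of the problem for the parameter `N` (and `a_0 = 0`) -/
noncomputable def a (N : ℕ) : ℕ → ℤ
  | 0 => 0
  | 1 => (N : ℤ) - 2
  | (n + 2) => a N (n + 1) - ((Int.gcd (a N (n + 1))
      ((N : ℤ) - (-1) ^ (n + 2) * ((N : ℤ) - ((n + 2 : ℕ) : ℤ))) : ℕ) : ℤ)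

/-- `g_N`: the least `n ≥ 2` with `a_n = 0` -/
noncomputable def g (N : ℕ) : ℕ := sInf {n : ℕ | 2 ≤ n ∧ a N n = 0}

/-- the descent for the parameter `N` is slow, with the constants `c` and `D`: `N ≥ 3`, `g_N ≥ exp (c (log N)^(1/4))`, and
`a_n ≥ N - exp (D (log N)^(3/4))` for all `1 ≤ n ≤ exp (c (log N)^(1/4))` -/
def Slow (c D : ℝ) (N : ℕ) : Prop :=
  3 ≤ N ∧ Real.exp (c * Real.log N ^ (1 / 4 : ℝ)) ≤ g N ∧
    ∀ n : ℕ, 1 ≤ n → (n : ℝ) ≤ Real.exp (c * Real.log N ^ (1 / 4 : ℝ)) →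
      (N : ℝ) - Real.exp (D * Real.log N ^ (3 / 4 : ℝ)) ≤ a N n

/-- the sums of `exp (-t (log (1 + ‖v i‖))^(3/4))` converge for `t > 0`; `‖v i‖` is the largest `|v i j|` -/
def Sparse {k : ℕ} {ι : Type} (v : ι → Fin k → ℝ) : Prop :=
  ∀ t : ℝ, 0 < t → Summable fun i => Real.exp (-(t * Real.log (1 + ‖v i‖) ^ (3 / 4 : ℝ)))

lemma a_eq (N n : ℕ) : a N n = StarshapedSequences.a N n := by
  induction n using Nat.strong_induction_on with
  | _ n ih =>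
    match n with
    | 0 => rw [a, StarshapedSequences.a]
    | 1 => rw [a, StarshapedSequences.a]
    | n + 2 => rw [a, StarshapedSequences.a, ih (n + 1) (by omega)]

lemma g_eq (N : ℕ) : g N = StarshapedSequences.g N := by
  unfold g StarshapedSequences.g
  simp only [a_eq]

lemma slow_iff (c D : ℝ) (N : ℕ) : Slow c D N ↔ 3 ≤ N ∧ StarshapedSequences.Slow c D N := by
  unfold Slow StarshapedSequences.Slow
  simp only [a_eq, g_eq]

lemma slow_mono {c c' D : ℝ} (h : c' ≤ c) {N : ℕ} (hs : Slow c D N) : Slow c' D N :=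
  (slow_iff _ _ _).2 (StarshapedSequences.slow_mono h ((slow_iff _ _ _).1 hs))

/-- polynomials: the norm of `(1, m, …, m ^ d)` -/
lemma norm_poly {d : ℕ} {m : ℕ} (hm : 1 ≤ m) : ‖fun j : Fin (d + 1) => ((m : ℝ)) ^ (j : ℕ)‖ = (m : ℝ) ^ d := by
  have hm1 : (1 : ℝ) ≤ m := by exact_mod_cast hm
  apply le_antisymm
  · rw [pi_norm_le_iff_of_nonneg (by positivity)]
    intro j
    rw [Real.norm_of_nonneg (by positivity)]
    exact pow_le_pow_right₀ hm1 (by have := j.2; omega)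
  · have h1 := norm_le_pi_norm (fun j : Fin (d + 1) => ((m : ℝ)) ^ (j : ℕ)) (Fin.last d)
    rw [Real.norm_of_nonneg (by positivity)] at h1
    simpa using h1

/-- **Theorem.** There are `c, D > 0` such that: (1) for every family `v` of vectors in `ℝ ^ k` with the property `Sparse`, for
almost all `α ∈ ℝ ^ k`, for all but finitely many `i`, EVERY `N : ℕ` with
`|N - ∑ α_j v_(i,j)| ≤ exp (c (log (1 + ‖v i‖))^(3/4))` satisfies `N ≥ 3`, `g_N ≥ exp (c (log N)^(1/4))`, and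
`a_n ≥ N - exp (D (log N)^(3/4))` for all `1 ≤ n ≤ exp (c (log N)^(1/4))` (`Slow`). (2) For all reals `b_1, …, b_k > 1` the
vectors `(b_1 ^ (n_1), …, b_k ^ (n_k))` over all `(n_1, …, n_k) ∈ ℕ ^ k` are such a family. (3) For `a > 0` there is `c' > 0`
such that for every sequence `v_0, v_1, …` of vectors in `ℝ ^ k` with `‖v_m‖ ≥ s m ^ a` for `m ≥ 1`, `s > 0`, for almost all
`α ∈ ℝ ^ k` there is `K` such that for every `M ≥ 1` for all `m ≤ M` but at most `K M exp (-c' (log M)^(3/4))` EVERY `N : ℕ`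
with `|N - ∑ α_j v_(m,j)| ≤ exp (c (log (1 + ‖v_m‖))^(3/4))` is slow. (4) For `d ≥ 1` there is `c' > 0` such that for almost
all `α ∈ ℝ ^ (d + 1)` there is `K` such that for every `M ≥ 1` for all `1 ≤ m ≤ M` but at most `K M exp (-c' (log M)^(3/4))`
EVERY `N : ℕ` with `|N - ∑ α_j m ^ j| ≤ exp (c (d log m)^(3/4))` is slow. -/
theorem result : ∃ c D : ℝ, 0 < c ∧ 0 < D ∧
    (∀ (k : ℕ) (ι : Type) (v : ι → Fin k → ℝ), Sparse v → ∀ᵐ α : Fin k → ℝ,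
      {i | ¬ ∀ N : ℕ, |(N : ℝ) - ∑ j, α j * v i j| ≤ Real.exp (c * Real.log (1 + ‖v i‖) ^ (3 / 4 : ℝ)) →
        Slow c D N}.Finite) ∧
    (∀ (k : ℕ) (b : Fin k → ℝ), (∀ j, 1 < b j) → Sparse (fun (n : Fin k → ℕ) (j : Fin k) => b j ^ n j)) ∧
    (∀ a : ℝ, 0 < a → ∃ c' : ℝ, 0 < c' ∧ ∀ (k : ℕ) (v : ℕ → Fin k → ℝ) (s : ℝ), 0 < s →
      (∀ m : ℕ, 1 ≤ m → s * (m : ℝ) ^ a ≤ ‖v m‖) → ∀ᵐ α : Fin k → ℝ, ∃ K : ℝ, ∀ M : ℕ, 1 ≤ M →
        ({m : ℕ | m ≤ M ∧ ¬ ∀ N : ℕ, |(N : ℝ) - ∑ j, α j * v m j| ≤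
          Real.exp (c * Real.log (1 + ‖v m‖) ^ (3 / 4 : ℝ)) → Slow c D N}.ncard : ℝ) ≤
            K * (M * Real.exp (-(c' * Real.log M ^ (3 / 4 : ℝ))))) ∧
    (∀ d : ℕ, 1 ≤ d → ∃ c' : ℝ, 0 < c' ∧ ∀ᵐ α : Fin (d + 1) → ℝ, ∃ K : ℝ, ∀ M : ℕ, 1 ≤ M →
        ({m : ℕ | 1 ≤ m ∧ m ≤ M ∧ ¬ ∀ N : ℕ, |(N : ℝ) - ∑ j : Fin (d + 1), α j * (m : ℝ) ^ (j : ℕ)| ≤
          Real.exp (c * (d * Real.log m) ^ (3 / 4 : ℝ)) → Slow c D N}.ncard : ℝ) ≤
            K * (M * Real.exp (-(c' * Real.log M ^ (3 / 4 : ℝ))))) := by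
  obtain ⟨c₀, D, c₁, K, hc₀, hD, hc₁, hK, hfew⟩ := StarshapedSequences.few_real
  obtain ⟨c, hc⟩ : ∃ c : ℝ, c = min c₀ (c₁ / 2) := ⟨_, rfl⟩
  have hcc₀ : c ≤ c₀ := by rw [hc]; exact min_le_left _ _
  have hcc₁ : c ≤ c₁ / 2 := by rw [hc]; exact min_le_right _ _
  have hc0 : 0 < c := by rw [hc]; exact lt_min hc₀ (by positivity)
  have hbad : ∀ (y w w' : ℝ), w ≤ w' → (¬ ∀ N : ℕ, |(N : ℝ) - y| ≤ w → Slow c D N) →
      ∃ N ∈ {N : ℕ | ¬ (3 ≤ N ∧ StarshapedSequences.Slow c₀ D N)}, |(N : ℝ) - y| ≤ w' := by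
    intro y w w' hww h
    push Not at h
    obtain ⟨N, h1, h2⟩ := h
    exact ⟨N, fun h3 => h2 (slow_mono hcc₀ ((slow_iff _ _ _).2 h3)), h1.trans hww⟩
  have hwin : ∀ x : ℝ, 0 ≤ x → Real.exp (c * Real.log (1 + x) ^ (3 / 4 : ℝ)) ≤
      Real.exp (c₁ / 2 * Real.log (1 + x) ^ (3 / 4 : ℝ)) := by
    intro x hx
    apply Real.exp_le_exp.2
    exact mul_le_mul_of_nonneg_right hcc₁ (Real.rpow_nonneg (Real.log_nonneg (by linarith)) _)
  have hdense : ∀ a : ℝ, 0 < a → ∃ c' : ℝ, 0 < c' ∧ ∀ (k : ℕ) (v : ℕ → Fin k → ℝ) (s : ℝ), 0 < s →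
      (∀ m : ℕ, 1 ≤ m → s * (m : ℝ) ^ a ≤ ‖v m‖) → ∀ᵐ α : Fin k → ℝ, ∃ K : ℝ, ∀ M : ℕ, 1 ≤ M →
        ({m : ℕ | m ≤ M ∧ ¬ ∀ N : ℕ, |(N : ℝ) - ∑ j, α j * v m j| ≤
          Real.exp (c * Real.log (1 + ‖v m‖) ^ (3 / 4 : ℝ)) → Slow c D N}.ncard : ℝ) ≤
            K * (M * Real.exp (-(c' * Real.log M ^ (3 / 4 : ℝ)))) := by
    intro a ha
    refine ⟨min (c₁ / 2 * (a / 2) ^ (3 / 4 : ℝ)) 1 / 8, div_pos (lt_min (by positivity) one_pos) (by norm_num),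
      fun k v s hs hv => ?_⟩
    filter_upwards [Pool.Agent.V8H1.TR.count34 hK hc₁ hfew v ha hs hv] with α hα
    obtain ⟨K', hK'⟩ := hα
    refine ⟨K', fun M hM => le_trans ?_ (hK' M hM)⟩
    have hsub : {m : ℕ | m ≤ M ∧ ¬ ∀ N : ℕ, |(N : ℝ) - ∑ j, α j * v m j| ≤
        Real.exp (c * Real.log (1 + ‖v m‖) ^ (3 / 4 : ℝ)) → Slow c D N} ⊆
        {m : ℕ | m ≤ M ∧ ∃ n ∈ {N : ℕ | ¬ (3 ≤ N ∧ StarshapedSequences.Slow c₀ D N)},
          |(n : ℝ) - ∑ j, α j * v m j| ≤ Real.exp (c₁ / 2 * Real.log (1 + ‖v m‖) ^ (3 / 4 : ℝ))} :=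
      fun m hm => ⟨hm.1, hbad _ _ _ (hwin _ (norm_nonneg _)) hm.2⟩
    have hfin : {m : ℕ | m ≤ M ∧ ∃ n ∈ {N : ℕ | ¬ (3 ≤ N ∧ StarshapedSequences.Slow c₀ D N)},
          |(n : ℝ) - ∑ j, α j * v m j| ≤ Real.exp (c₁ / 2 * Real.log (1 + ‖v m‖) ^ (3 / 4 : ℝ))}.Finite :=
      (Set.finite_Iic M).subset fun m hm => hm.1
    exact_mod_cast Set.ncard_le_ncard hsub hfin
  refine ⟨c, D, hc0, hD, fun k ι v hv => ?_, fun k b hb => ?_, hdense, fun d hd => ?_⟩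
  · filter_upwards [Pool.Agent.V8H1.TR.sparse34 hK hc₁ hfew v hv] with α hα
    exact hα.subset fun i hi => hbad _ _ _ (hwin _ (norm_nonneg _)) hi
  · exact Pool.Agent.V8H1.TR.sparse_of_slow _
      (Pool.Agent.N251.LF.slow_examples.1 k (fun j n => b j ^ n) fun j => Pool.Agent.N251.LF.slow_examples.2.1 _ (hb j))
  · obtain ⟨c', hc', h⟩ := hdense d (by exact_mod_cast hd)
    refine ⟨c', hc', ?_⟩
    filter_upwards [h (d + 1) (fun m (j : Fin (d + 1)) => ((m : ℝ)) ^ (j : ℕ)) 1 one_pos (fun m hm => by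
      rw [norm_poly hm, Real.rpow_natCast, one_mul])] with α hα
    obtain ⟨K', hK'⟩ := hα
    refine ⟨K', fun M hM => le_trans ?_ (hK' M hM)⟩
    have hfin : {m : ℕ | m ≤ M ∧ ¬ ∀ N : ℕ, |(N : ℝ) - ∑ j : Fin (d + 1), α j * (m : ℝ) ^ (j : ℕ)| ≤
        Real.exp (c * Real.log (1 + ‖fun j : Fin (d + 1) => ((m : ℝ)) ^ (j : ℕ)‖) ^ (3 / 4 : ℝ)) → Slow c D N}.Finite :=
      (Set.finite_Iic M).subset fun m hm => hm.1
    refine Nat.cast_le.2 (Set.ncard_le_ncard ?_ hfin)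
    rintro m ⟨hm1, hmM, hm⟩
    refine ⟨hmM, fun hall => hm fun N hN => hall N (hN.trans ?_)⟩
    apply Real.exp_le_exp.2
    apply mul_le_mul_of_nonneg_left _ hc0.le
    have hm1' : (1 : ℝ) ≤ m := by exact_mod_cast hm1
    refine Real.rpow_le_rpow (mul_nonneg (Nat.cast_nonneg _) (Real.log_nonneg hm1')) ?_ (by norm_num)
    rw [norm_poly hm1, ← Real.log_pow]
    exact Real.log_le_log (by positivity) (by linarith [pow_pos (show (0 : ℝ) < m by linarith) d])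

end Pool.Agent.Results.MP_b5e119_nt.GenericLinearForms
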