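import Mathlib
import Pool.Agent.V8H9.GD.Lst

/-!
# The gcd recursion for Goldbach pairs: a positive proportion of the integers are defects

`a N` is the recursion `a_1, a_2, …` of the problem for the parameter `N`, `d N n` is the gcd which
is subtracted at the index `n`, and `g N = g_N` is the least zero `n ≥ 2`. The defect of `N` is
`N - g_N`. We show that a positive proportion of the integers `h` are defects of infinitely many (in
fact of at least `X ^ (1 - ε)`, for arbitrarily large `X`) composite `N ≤ X` for which both numbers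
of the problem are prime and exactly two gcds are not `1`.
-/

set_option autoImplicit false

namespace Pool.Agent.Results.MP_b5e119_nt.PositiveDensityOfDefects

open Finset Filter Topology

/-- the recursion of the problem: `a_1 = N - 2`, and
`a_n = a_{n-1} - gcd(a_{n-1}, N - (-1)^n (N - n))` for `n ≥ 2` (and `a_0 = 0`, not used) -/
noncomputable def a (N : ℕ) : ℕ → ℤ
  | 0 => 0
  | 1 => (N : ℤ) - 2
  | (n + 2) => a N (n + 1) - ((Int.gcd (a N (n + 1))
      ((N : ℤ) - (-1) ^ (n + 2) * ((N : ℤ) - ((n + 2 : ℕ) : ℤ))) : ℕ) : ℤ)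

/-- the gcd subtracted at the index `n` (for `n ≥ 2`) -/
noncomputable def d (N n : ℕ) : ℕ :=
  Int.gcd (a N (n - 1)) ((N : ℤ) - (-1) ^ n * ((N : ℤ) - (n : ℤ)))

/-- `g_N`: the least `n ≥ 2` with `a_n = 0` -/
noncomputable def g (N : ℕ) : ℕ := sInf {n : ℕ | 2 ≤ n ∧ a N n = 0}

/-- `N` is composite, `N - g_N = h`, both `g_N + 1` and `2 N - g_N - 1` are prime, and exactly two
of the gcds up to the index `g_N` are not `1`; these are two primes, the first one less than the
second one, and their sum is `h + 1` -/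
def Good (h N : ℕ) : Prop :=
  ¬ N.Prime ∧ IsLeast {n : ℕ | 2 ≤ n ∧ a N n = 0} (g N) ∧ g N + h = N ∧
    (g N + 1).Prime ∧ (2 * N - g N - 1).Prime ∧
    ∃ m n : ℕ, 2 ≤ m ∧ m < n ∧ n ≤ g N ∧ (d N m).Prime ∧ (d N n).Prime ∧ d N m < d N n ∧
      d N m + d N n = h + 1 ∧ ∀ l, 2 ≤ l → l ≤ g N → l ≠ m → l ≠ n → d N l = 1

lemma walk_a (N : ℕ) : Pool.Agent.Y884.GR.Walk N (a N) := by
  refine ⟨by rw [a], fun n hn => ?_⟩
  obtain ⟨k, rfl⟩ : ∃ k, n = k + 2 := ⟨n - 2, by omega⟩
  rw [a]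
  rfl

lemma good_of_gd {h N : ℕ} (H : Pool.Agent.V8H9.GD.Gd h N) : Good h N := by
  obtain ⟨p, q, n, T, hpq, hN⟩ := H
  have hw := walk_a N
  rw [hN] at hw
  obtain ⟨h1, h2, h3, h4, h5, h6⟩ := T.walk hw
  rw [← hN] at h1 h4 h5 h6
  have hg : g N = n - 1 := h1.csInf_eq
  have hp2 := T.p2
  have hgr := T.grow
  have hbig := T.big
  have hn1 := T.pr1
  have hd1 : d N p = p := h4
  have hd2 : d N (q + 2 - 2 * p) = q := h5
  have hn0 : 1 ≤ n := hn1.one_lt.le
  refine ⟨?_, by rw [hg]; exact h1, by omega, ?_, ?_, p, q + 2 - 2 * p, by omega, h2,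
    by rw [hg]; exact h3, by rw [hd1]; exact T.pp, by rw [hd2]; exact T.qp, by rw [hd1, hd2]; omega,
    by rw [hd1, hd2]; exact hpq, ?_⟩
  · intro hpr
    have hd : p ∣ N := by rw [hN]; exact T.hit1
    rcases (Nat.dvd_prime hpr).mp hd with h7 | h7
    · omega
    · omega
  · have e : g N + 1 = n := by omega
    rw [e]; exact hn1
  · have e : 2 * N - g N - 1 = n + 2 * (p + q - 2) := by omega
    rw [e]; exact T.pr2
  · intro l hl1 hl2 hl3 hl4
    exact h6 l hl1 (by omega) hl3 hl4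

open Classical in
/-- There is `c > 0` such that for all large `x` the following holds.
(1) For every `ε > 0` and all large `X` there are at least `c x` integers `1 ≤ h ≤ x` such that at
least `X ^ (1 - ε)` integers `N ≤ X` are composite with `N - g_N = h`, both `g_N + 1` and
`2 N - g_N - 1` prime and exactly two gcds different from `1`, which are primes `p < q` with
`p + q = h + 1`.
(2) There are at least `c x` integers `1 ≤ h ≤ x` such that for every `ε > 0` there are arbitrarily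
large `X` with at least `X ^ (1 - ε)` such integers `N ≤ X`. -/
theorem result : ∃ c : ℝ, 0 < c ∧ ∃ x₀ : ℕ, ∀ x : ℕ, x₀ ≤ x →
    (∀ ε : ℝ, 0 < ε → ∀ᶠ X : ℝ in atTop,
      c * x ≤ (((Icc 1 x).filter (fun h : ℕ => X ^ (1 - ε) ≤
        (((Icc 1 ⌊X⌋₊).filter (fun N : ℕ => Good h N)).card : ℝ))).card : ℝ)) ∧
    c * x ≤ (((Icc 1 x).filter (fun h : ℕ => ∀ ε : ℝ, 0 < ε → ∃ᶠ X : ℝ in atTop, X ^ (1 - ε) ≤
        (((Icc 1 ⌊X⌋₊).filter (fun N : ℕ => Good h N)).card : ℝ))).card : ℝ) := by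
  obtain ⟨c, hc, x₀, hx₀⟩ := Pool.Agent.V8H9.GD.proportion
  refine ⟨c, hc, x₀, fun x hx => ?_⟩
  have hle : ∀ (X : ℝ) (h : ℕ), (Pool.Agent.V8H9.GD.ct X h : ℝ) ≤
      (((Icc 1 ⌊X⌋₊).filter (fun N : ℕ => Good h N)).card : ℝ) := by
    intro X h
    rw [Nat.cast_le]
    unfold Pool.Agent.V8H9.GD.ct
    apply card_le_card
    intro N hN
    have hN' := mem_filter.1 hN
    exact mem_filter.2 ⟨hN'.1, good_of_gd hN'.2⟩
  have h1 : ∀ ε : ℝ, 0 < ε → ∀ᶠ X : ℝ in atTop,
      c * x ≤ (((Icc 1 x).filter (fun h : ℕ => X ^ (1 - ε) ≤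
        (((Icc 1 ⌊X⌋₊).filter (fun N : ℕ => Good h N)).card : ℝ))).card : ℝ) := by
    intro ε hε
    filter_upwards [hx₀ x hx ε hε] with X hX
    refine hX.trans ?_
    rw [Nat.cast_le]
    apply card_le_card
    intro h hh
    have hh' := mem_filter.1 hh
    exact mem_filter.2 ⟨hh'.1, hh'.2.trans (hle X h)⟩
  exact ⟨h1, Pool.Agent.V8H9.GD.limsup_form
    (fun X h => (((Icc 1 ⌊X⌋₊).filter (fun N : ℕ => Good h N)).card : ℝ)) h1⟩

end Pool.Agent.Results.MP_b5e119_nt.PositiveDensityOfDefects
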